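import Pool.Agent.Lib.MP_34f7ca_lc.COLN

/-!
# MP_34f7ca_lc, Q1 (Sacks): a class of locally countable partial orders that embed

Every locally countable partial order `P` of size at most continuum which has a well-ordering such
that every `x` has only countably many earlier elements incomparable to `x` and compatible with `x`
embeds into the Turing degrees.  More generally it is enough that the number of such earlier
elements is always smaller than a fixed cardinal `κ ≤ cov(M)` of uncountable cofinality.
-/

set_option autoImplicit false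

namespace Pool.Agent.Results.MP_34f7ca_lc.ColoringNumber

open Cardinal Pool.Agent.Lib.MP_34f7ca_lc Pool.Agent.GammaZero Pool.Agent.Mart

theorem result (P : Type) [PartialOrder P] (hP : #P ≤ 𝔠)
    (hloc : ∀ x : P, (Set.Iio x).Countable) (lt : P → P → Prop) [IsWellOrder P lt]
    (hcol : (∀ x, (Earlier lt x).Countable) ∨
      ∃ κ : Cardinal.{0}, κ ≤ covMeagre ∧ ℵ₀ < κ.ord.cof ∧ ∀ x, #(Earlier lt x) < κ) :
    ∃ F : P → ℕ → ℕ, ∀ x y : P, x ≤ y ↔
      TuringReducible (fun n => Part.some (F x n)) (fun n => Part.some (F y n)) := by
  have hloc' : ∀ p : P, (Set.Iic p).Countable := by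
    intro p
    have h1 : Set.Iic p = insert p (Set.Iio p) := Set.Iio_insert.symm
    rw [h1]
    exact (hloc p).insert p
  have hE : Embeds P := by
    rcases hcol with h | ⟨κ, hκ, hcof, h⟩
    · refine embeds_of_col covMeagre_aleph_one ?_ hP hloc' lt fun x => ?_
      · rw [Cardinal.isRegular_aleph_one.cof_ord]
        exact Cardinal.aleph0_lt_aleph_one
      · rw [Cardinal.lt_aleph_one_iff]
        exact Cardinal.mk_le_aleph0_iff.2 (h x).to_subtype
    · exact embeds_of_col (covMeagre_of_le hκ) hcof hP hloc' lt h
  obtain ⟨f, hf⟩ := hE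
  refine ⟨fun x n => (f x n).toNat, fun x y => (hf x y).trans ?_⟩
  exact RecursiveIn.iff_nat.symm

end Pool.Agent.Results.MP_34f7ca_lc.ColoringNumber
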