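import Pool.Agent.Lib.SX.Main

/-!
# Sacks's question on the Turing degrees: consistency of the negative answer (MP_34f7ca_lc, Q1)

There is a model `(M, E)` of ZFC with standard natural numbers which has a locally countable partial order
`(P, R)` of cardinality at most `2 ^ ω`, with no chain of four elements, such that no function of the model
embeds it into the Turing degrees.

`IsZFC` is in `Lib/BVM/ZFCDef.lean`, `PairIn` in `Lib/PolB/Mdl.lean`; `IsNum`, `IsStdOmega`, `Row`, `IsPO`, `IsLocCtb`,
`LeCont`, `IsH3`, `SetTR` are in `Lib/SX/MDefs.lean`. `SetTR A B` is Mathlib's `TuringReducible` for the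
characteristic functions of `A` and `B`.
-/

set_option autoImplicit false

namespace Pool.Agent.Results.MP_34f7ca_lc.SacksFails

open Pool.Agent.SX Pool.Agent.PolB Pool.Agent.Lib.BVM

theorem result :
    ∃ (M : Type 1) (E : M → M → Prop), IsZFC E ∧ ∃ w P R : M, IsStdOmega E w ∧
      IsPO E P R ∧ IsLocCtb E w P R ∧ LeCont E w P ∧ IsH3 E P R ∧
      ∀ F : M, ¬ ∀ x y, E x P → E y P → (PairIn E R x y ↔ SetTR (Row E F x) (Row E F y)) :=
  sacksFails

end Pool.Agent.Results.MP_34f7ca_lc.SacksFails
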